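import Pool.Agent.T2H83.Dom.Pat

set_option autoImplicit false
set_option linter.unusedSectionVars false

/-!
# Colours for a permutation which moves three classes cyclically
-/

namespace Pool.Agent.T2H83.Dom

open Finset Function

variable {V : Type} [Fintype V] [DecidableEq V]

/-- the sum of the colours in the class `i` -/
def sg (κ : V → ZMod 3) (c : V → F) (N : Finset V) (i : ZMod 3) : F :=
  ∑ v ∈ N, if κ v = i then c v else 0

/-- a proper colouring of the cycles of `π` in `N` -/
def Pc (π : V → V) (c : V → F) (N : Finset V) : Prop := ∀ v ∈ N, c v ≠ 0 ∧ c v ≠ c (π v)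

/-- the situation: `π` is injective, `N` is invariant, the classes are moved cyclically and there
is no cycle with three elements -/
structure Sit (π : V → V) (κ : V → ZMod 3) (N : Finset V) : Prop where
  inj : Function.Injective π
  inv : ∀ v, π v ∈ N ↔ v ∈ N
  cl : ∀ v ∈ N, κ (π v) = κ v + 1
  no3 : ∀ v ∈ N, π (π (π v)) ≠ v

variable {π : V → V} {κ : V → ZMod 3} {N : Finset V}

theorem Sit.iter (h : Sit π κ N) {v : V} (hv : v ∈ N) (j : ℕ) :
    π^[j] v ∈ N ∧ κ (π^[j] v) = κ v + j := by
  induction j with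
  | zero => exact ⟨hv, by simp⟩
  | succ j ih =>
    rw [Function.iterate_succ_apply']
    refine ⟨(h.inv _).2 ih.1, ?_⟩
    rw [h.cl _ ih.1, ih.2]
    push_cast
    ring

theorem Sit.per (h : Sit π κ N) {v : V} (hv : v ∈ N) :
    6 ≤ minimalPeriod π v ∧ minimalPeriod π v % 3 = 0 := by
  have h1 : 0 < minimalPeriod π v := by
    rw [minimalPeriod_pos_iff_mem_periodicPts]
    exact h.inj.mem_periodicPts v
  have h2 : π^[minimalPeriod π v] v = v := iterate_minimalPeriod
  have h3 := (h.iter hv (minimalPeriod π v)).2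
  rw [h2] at h3
  have h4 : ((minimalPeriod π v : ℕ) : ZMod 3) = 0 := by
    have : κ v + 0 = κ v + ((minimalPeriod π v : ℕ) : ZMod 3) := by rw [add_zero]; exact h3
    exact (add_left_cancel this).symm
  rw [ZMod.natCast_eq_zero_iff] at h4
  have h5 : minimalPeriod π v ≠ 3 := by
    intro h6
    rw [h6] at h2
    exact h.no3 v hv h2
  have h6 := Nat.mod_eq_zero_of_dvd h4
  omega

/-- the orbit -/
noncomputable def orb (π : V → V) (v : V) : Finset V := (range (minimalPeriod π v)).image (fun j => π^[j] v)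

theorem mem_orb {v w : V} : w ∈ orb π v ↔ ∃ j < minimalPeriod π v, π^[j] v = w := by
  unfold orb
  simp

theorem Sit.orb_inv (h : Sit π κ N) {v : V} (hv : v ∈ N) (w : V) :
    π w ∈ orb π v ↔ w ∈ orb π v := by
  have h1 := (h.per hv).1
  have h2 : π^[minimalPeriod π v] v = v := iterate_minimalPeriod
  rw [mem_orb, mem_orb]
  constructor
  · rintro ⟨j, hj, h3⟩
    rcases j with _ | j
    · refine ⟨minimalPeriod π v - 1, by omega, h.inj ?_⟩
      rw [← Function.iterate_succ_apply' π, ← h3]
      have : (minimalPeriod π v - 1).succ = minimalPeriod π v := by omega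
      rw [this, h2]
      rfl
    · rw [Function.iterate_succ_apply'] at h3
      exact ⟨j, by omega, h.inj h3⟩
  · rintro ⟨j, hj, h3⟩
    by_cases h4 : j + 1 < minimalPeriod π v
    · exact ⟨j + 1, h4, by rw [Function.iterate_succ_apply', h3]⟩
    · have h5 : j + 1 = minimalPeriod π v := by omega
      refine ⟨0, by omega, ?_⟩
      rw [← h3, ← Function.iterate_succ_apply' π]
      change v = π^[j + 1] v
      rw [h5, h2]

theorem Sit.orb_sub (h : Sit π κ N) {v : V} (hv : v ∈ N) : orb π v ⊆ N := by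
  intro w hw
  obtain ⟨j, -, rfl⟩ := mem_orb.1 hw
  exact (h.iter hv j).1

theorem orb_card (v : V) : (orb π v).card = minimalPeriod π v := by
  unfold orb
  rw [card_image_of_injOn, card_range]
  intro i hi j hj hij
  exact iterate_injOn_Iio_minimalPeriod (by simpa using hi) (by simpa using hj) hij

theorem Sit.diff (h : Sit π κ N) {v : V} (hv : v ∈ N) : Sit π κ (N \ orb π v) where
  inj := h.inj
  inv w := by rw [mem_sdiff, mem_sdiff, h.inv, h.orb_inv hv]
  cl w hw := h.cl w (mem_sdiff.1 hw).1
  no3 w hw := h.no3 w (mem_sdiff.1 hw).1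

/-- every nonempty invariant set has an element in the class `0` -/
theorem Sit.base (h : Sit π κ N) {v : V} (hv : v ∈ N) : ∃ w ∈ N, κ w = 0 := by
  have key : ∀ x : ZMod 3, x = 0 ∨ x + 1 = 0 ∨ x + 1 + 1 = 0 := by decide
  rcases key (κ v) with h1 | h1 | h1
  · exact ⟨v, hv, h1⟩
  · exact ⟨π v, (h.inv v).2 hv, by rw [h.cl v hv, h1]⟩
  · refine ⟨π (π v), (h.inv _).2 ((h.inv v).2 hv), ?_⟩
    rw [h.cl _ ((h.inv v).2 hv), h.cl v hv, h1]

open Classical in
/-- the colouring which is given by the pattern `p` on the orbit of `v` -/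
noncomputable def join (π : V → V) (v : V) (p : ℕ → F) (c : V → F) (w : V) : F :=
  if h : ∃ j, j < minimalPeriod π v ∧ π^[j] v = w then p (Nat.find h) else c w

theorem join_orb {v : V} {p : ℕ → F} {c : V → F} {j : ℕ} (hj : j < minimalPeriod π v) :
    join π v p c (π^[j] v) = p j := by
  classical
  have h : ∃ i, i < minimalPeriod π v ∧ π^[i] v = π^[j] v := ⟨j, hj, rfl⟩
  unfold join
  rw [dif_pos h]
  congr 1
  have h1 := Nat.find_spec h
  exact iterate_injOn_Iio_minimalPeriod (Set.mem_Iio.2 h1.1) (Set.mem_Iio.2 hj) h1.2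

theorem join_not {v : V} {p : ℕ → F} {c : V → F} {w : V} (hw : w ∉ orb π v) :
    join π v p c w = c w := by
  classical
  unfold join
  rw [dif_neg]
  rintro ⟨j, hj⟩
  exact hw (mem_orb.2 ⟨j, hj⟩)

/-- adding an orbit -/
theorem Sit.step (h : Sit π κ N) {v : V} (hv : v ∈ N) (h0 : κ v = 0) {p : ℕ → F} {c : V → F}
    (hp : PatOK p (minimalPeriod π v)) (hc : Pc π c (N \ orb π v)) :
    Pc π (join π v p c) N ∧
      ∀ i, sg κ (join π v p c) N i = sg κ c (N \ orb π v) i + T p (minimalPeriod π v) i := by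
  have h6 := (h.per hv).1
  have h2 : π^[minimalPeriod π v] v = v := iterate_minimalPeriod
  constructor
  · intro w hw
    by_cases h3 : w ∈ orb π v
    · obtain ⟨j, hj, rfl⟩ := mem_orb.1 h3
      rw [join_orb hj]
      refine ⟨hp.nz j hj, ?_⟩
      rw [← Function.iterate_succ_apply' π]
      by_cases h4 : j + 1 < minimalPeriod π v
      · rw [join_orb h4]
        exact hp.ne j h4
      · have h5 : j + 1 = minimalPeriod π v := by omega
        have h7 : π^[j.succ] v = π^[0] v := by
          rw [Nat.succ_eq_add_one, h5, h2]; rfl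
        rw [h7, join_orb (by omega : 0 < minimalPeriod π v)]
        have h8 : j = minimalPeriod π v - 1 := by omega
        rw [h8]
        exact hp.cyc
    · have h4 : π w ∉ orb π v := fun h5 => h3 ((h.orb_inv hv w).1 h5)
      rw [join_not h3, join_not h4]
      exact hc w (mem_sdiff.2 ⟨hw, h3⟩)
  · intro i
    unfold sg
    rw [← Finset.sum_sdiff (h.orb_sub hv)]
    congr 1
    · refine Finset.sum_congr rfl fun w hw => ?_
      rw [join_not (mem_sdiff.1 hw).2]
    · unfold orb T
      rw [Finset.sum_image]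
      · refine Finset.sum_congr rfl fun j hj => ?_
        rw [mem_range] at hj
        rw [join_orb hj, (h.iter hv j).2, h0, zero_add]
      · intro a ha b hb hab
        exact iterate_injOn_Iio_minimalPeriod (by simpa using ha) (by simpa using hb) hab

/-- **equal sums** -/
theorem eqsum : ∀ (n : ℕ) (N : Finset V), N.card = n → Sit π κ N →
    ∃ c, Pc π c N ∧ ∃ x, ∀ i, sg κ c N i = x := by
  intro n
  induction n using Nat.strong_induction_on with
  | _ n ih =>
    intro N hN h
    rcases N.eq_empty_or_nonempty with h1 | ⟨v', hv'⟩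
    · subst h1
      exact ⟨fun _ => 0, fun v hv => absurd hv (notMem_empty v), 0, fun i => rfl⟩
    · obtain ⟨v, hv, h0⟩ := h.base hv'
      have h6 := h.per hv
      have h7 : (N \ orb π v).card < n := by
        rw [card_sdiff_of_subset (h.orb_sub hv), orb_card, hN]
        have := card_le_card (h.orb_sub hv)
        rw [orb_card, hN] at this
        omega
      obtain ⟨c, hc, x, hx⟩ := ih _ h7 _ rfl (h.diff hv)
      obtain ⟨p, hp, y, hy⟩ := ex_eq h6.2 h6.1
      obtain ⟨k1, k2⟩ := h.step hv h0 hp hc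
      exact ⟨_, k1, x + y, fun i => by rw [k2, hx, hy]⟩

/-- **different sums** -/
theorem nesum (h : Sit π κ N) (h7 : 7 ≤ N.card) :
    ∃ c, Pc π c N ∧ ∀ i j, i ≠ j → sg κ c N i ≠ sg κ c N j := by
  by_cases hex : ∃ v ∈ N, κ v = 0 ∧ minimalPeriod π v ≠ 6
  · obtain ⟨v, hv, h0, hn⟩ := hex
    have h6 := h.per hv
    obtain ⟨c, hc, x, hx⟩ := eqsum _ _ rfl (h.diff hv)
    obtain ⟨p, hp, hy⟩ := ex_ne h6.2 (by omega)
    obtain ⟨k1, k2⟩ := h.step hv h0 hp hc
    refine ⟨_, k1, fun i j hij => ?_⟩
    rw [k2, k2, hx, hx]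
    exact fun h' => hy i j hij (add_left_cancel h')
  · push Not at hex
    have hne : N.Nonempty := by
      rw [← card_pos]; omega
    obtain ⟨v', hv'⟩ := hne
    obtain ⟨v, hv, h0⟩ := h.base hv'
    have hn := hex v hv h0
    have h8 : (N \ orb π v).Nonempty := by
      rw [← card_pos, card_sdiff_of_subset (h.orb_sub hv), orb_card, hn]
      omega
    obtain ⟨w', hw'⟩ := h8
    obtain ⟨w, hw, h1⟩ := (h.diff hv).base hw'
    have hm := hex w (mem_sdiff.1 hw).1 h1
    obtain ⟨c, hc, x, hx⟩ := eqsum _ _ rfl ((h.diff hv).diff hw)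
    have hp : PatOK (ext x6) (minimalPeriod π w) := by
      rw [hm]; exact ext_ok x6_ok 0
    have hq : PatOK (ext y6) (minimalPeriod π v) := by
      rw [hn]; exact ext_ok y6_ok 0
    obtain ⟨k1, k2⟩ := (h.diff hv).step hw h1 hp hc
    obtain ⟨k3, k4⟩ := h.step hv h0 hq k1
    refine ⟨_, k3, fun i j hij => ?_⟩
    rw [k4, k4, k2, k2, hx, hx, hm, hn, add_assoc, add_assoc]
    exact fun h' => xy_T i j hij (add_left_cancel h')

end Pool.Agent.T2H83.Dom
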