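import Pool.Agent.R545.IN.Ramsey

set_option autoImplicit false
set_option linter.unusedSectionVars false

/-!
# Graphs without short circuits which are dominated by three vertices

`R` is a symmetric relation without circuits of length one, two, three and four such that each
element with a neighbour has at least three of them, and `D` is a set of at most three elements such
that every element with a neighbour is in `D` or has a neighbour in `D`.
-/

namespace Pool.Agent.T2H83.Dom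

open Finset Pool.Agent.R545.IN

variable {V : Type} [Fintype V] [DecidableEq V] {R : V → V → Prop} [∀ y, DecidablePred (R y)]

/-- the hypotheses -/
structure Hyp (R : V → V → Prop) [∀ y, DecidablePred (R y)] (D : Finset V) : Prop where
  good : Good R
  three : ∀ x y, R x y → 3 ≤ (univ.filter (R x)).card
  card : D.card ≤ 3
  dom : ∀ x y, R x y → x ∈ D ∨ ∃ d ∈ D, R x d
  big : 18 ≤ (univ.filter (fun x => ∃ y, R x y)).card

variable {D : Finset V}

/-- `y` is `d` or a neighbour of `d` -/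
def rho (R : V → V → Prop) (y d : V) : Prop := y = d ∨ R y d

theorem Hyp.uniq (h : Hyp R D) {x y y' d : V} (hx : x ∉ D) (hd : d ∈ D) (h1 : R x y)
    (h2 : R x y') (h3 : rho R y d) (h4 : rho R y' d) : y = y' := by
  by_contra hne
  rcases h3 with h3 | h3 <;> rcases h4 with h4 | h4
  · exact hne (h3.trans h4.symm)
  · subst h3
    exact h.good.tri h2 h4 (h.good.symm h1)
  · subst h4
    exact h.good.tri h1 h3 (h.good.symm h2)
  · exact h.good.four (a := x) (b := y) (c := d) (d := y') (fun h5 => hx (h5 ▸ hd)) hne h1 h3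
      (h.good.symm h4) (h.good.symm h2)

/-- the neighbours of an element outside of `D` correspond to the elements of `D` -/
theorem Hyp.main (h : Hyp R D) {x y0 : V} (hx : x ∉ D) (hxy : R x y0) :
    D.card = 3 ∧ (univ.filter (R x)).card = 3 ∧
      (∀ y, R x y → ∃ d ∈ D, rho R y d ∧ ∀ d' ∈ D, rho R y d' → d' = d) ∧
      ∀ d ∈ D, ∃ y, R x y ∧ rho R y d := by
  classical
  have h1 : ∀ y, R x y → ∃ d, d ∈ D ∧ rho R y d := by
    intro y hy
    by_cases h2 : y ∈ D
    · exact ⟨y, h2, Or.inl rfl⟩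
    · rcases h.dom y x (h.good.symm hy) with h3 | ⟨d, h3, h4⟩
      · exact absurd h3 h2
      · exact ⟨d, h3, Or.inr h4⟩
  have : Nonempty V := ⟨x⟩
  choose! a ha ha' using h1
  have h3 := h.three x y0 hxy
  have hinj : ∀ y ∈ univ.filter (R x), ∀ y' ∈ univ.filter (R x), a y = a y' → y = y' := by
    intro y hy y' hy' hyy
    have k1 := (mem_filter.1 hy).2
    have k2 := (mem_filter.1 hy').2
    exact h.uniq hx (ha y k1) k1 k2 (ha' y k1) (hyy ▸ ha' y' k2)
  have hsub : (univ.filter (R x)).image a ⊆ D := by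
    intro d hd
    obtain ⟨y, hy, rfl⟩ := mem_image.1 hd
    exact ha y (mem_filter.1 hy).2
  have hcard : ((univ.filter (R x)).image a).card = (univ.filter (R x)).card :=
    card_image_of_injOn (fun y hy y' hy' hyy => hinj y hy y' hy' hyy)
  have h4 := card_le_card hsub
  have h5 := h.card
  have himg : (univ.filter (R x)).image a = D := eq_of_subset_of_card_le hsub (by omega)
  have hex : ∀ d ∈ D, ∃ y, R x y ∧ a y = d := by
    intro d hd
    rw [← himg] at hd
    obtain ⟨y, hy, rfl⟩ := mem_image.1 hd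
    exact ⟨y, (mem_filter.1 hy).2, rfl⟩
  refine ⟨by omega, by omega, fun y hy => ⟨a y, ha y hy, ha' y hy, fun d' hd' hr => ?_⟩,
    fun d hd => ?_⟩
  · obtain ⟨y', hy', rfl⟩ := hex d' hd'
    rw [h.uniq hx hd' hy hy' hr (ha' y' hy')]
  · obtain ⟨y, hy, rfl⟩ := hex d hd
    exact ⟨y, hy, ha' y hy⟩

/-- the structure: three hubs `d i`, the cycles `N` with the classes `κ`, the successor `π` and the
predecessor `ρ`, and at most one further element, in `Z` -/
structure Hub (R : V → V → Prop) (d : ZMod 3 → V) (N Z : Finset V) (κ : V → ZMod 3)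
    (π ρ : V → V) : Prop where
  inj : Function.Injective d
  dN : ∀ i, d i ∉ N
  dZ : ∀ i, d i ∉ Z
  NZ : ∀ x, x ∈ N → x ∉ Z
  nbN : ∀ x ∈ N, ∀ w, R x w ↔ w = d (κ x) ∨ w = π x ∨ w = ρ x
  pi : ∀ x ∈ N, π x ∈ N ∧ κ (π x) = κ x + 1 ∧ ρ (π x) = x
  rh : ∀ x ∈ N, ρ x ∈ N ∧ κ (ρ x) = κ x + 2 ∧ π (ρ x) = x
  out : ∀ x, x ∉ N → π x = x
  nbD : ∀ i w, R (d i) w ↔ (w ∈ N ∧ κ w = i) ∨ w ∈ Z
  nbZ : ∀ z ∈ Z, ∀ w, R z w ↔ ∃ i, w = d i
  Z1 : Z.card ≤ 1
  all : ∀ x y, R x y → x ∈ N ∨ x ∈ Z ∨ ∃ i, x = d i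
  N14 : 14 ≤ N.card
  no3 : ∀ x ∈ N, π (π (π x)) ≠ x

theorem three_cases (i k : ZMod 3) (h : i ≠ k) : i = k + 1 ∨ i = k + 2 := by
  revert i k; decide

theorem Hyp.hub (h : Hyp R D) : ∃ d N Z κ π ρ, Hub R d N Z κ π ρ := by
  classical
  have symm : ∀ {a b}, R a b → R b a := h.good.symm
  -- there is an element outside of `D`
  obtain ⟨x0, y0, hx0, hxy0⟩ : ∃ x0 y0, x0 ∉ D ∧ R x0 y0 := by
    by_contra hcon
    push Not at hcon
    have h1 : (univ.filter (fun x => ∃ y, R x y)) ⊆ D := by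
      intro x hx
      obtain ⟨y, hy⟩ := (mem_filter.1 hx).2
      by_contra h2
      exact hcon x y h2 hy
    have := card_le_card h1
    have := h.big
    have := h.card
    omega
  have hD3 : D.card = 3 := (h.main hx0 hxy0).1
  -- the hubs
  set eq := (Finset.equivFinOfCardEq hD3).symm with heq
  set d : ZMod 3 → V := fun i => (eq i : V) with hd
  have dinj : Function.Injective d := fun i j hij => eq.injective (Subtype.ext hij)
  have dD : ∀ i, d i ∈ D := fun i => (eq i).2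
  have Dd : ∀ v ∈ D, ∃ i, v = d i := by
    intro v hv
    obtain ⟨i, hi⟩ := eq.surjective ⟨v, hv⟩
    exact ⟨i, by simp only [hd]; rw [hi]⟩
  -- `D` is independent
  have ind : ∀ p ∈ D, ∀ q ∈ D, ¬ R p q := by
    intro p hp q hq hpq
    have h1 := h.three p q hpq
    have h2 : ¬ (univ.filter (R p)) ⊆ D.erase p := by
      intro h3
      have := card_le_card h3
      rw [card_erase_of_mem hp] at this
      omega
    rw [not_subset] at h2
    obtain ⟨x, hx, hx'⟩ := h2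
    have hpx := (mem_filter.1 hx).2
    have hxD : x ∉ D := by
      intro h4
      refine hx' (mem_erase.2 ⟨?_, h4⟩)
      rintro rfl
      exact h.good.irr _ hpx
    obtain ⟨r, hr, hr1, hr2⟩ := (h.main hxD (symm hpx)).2.2.1 p (symm hpx)
    have h5 := hr2 p hp (Or.inl rfl)
    have h6 := hr2 q hq (Or.inr hpq)
    have h7 : p = q := h5.trans h6.symm
    subst h7
    exact h.good.irr _ hpq
  set N : Finset V := univ.filter (fun x => x ∉ D ∧ ∃ y, y ∉ D ∧ R x y) with hN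
  set Z : Finset V := univ.filter (fun x => x ∉ D ∧ (∃ y, R x y) ∧ ∀ y, R x y → y ∈ D) with hZ
  have mN : ∀ x, x ∈ N ↔ x ∉ D ∧ ∃ y, y ∉ D ∧ R x y := fun x => by simp [hN]
  have mZ : ∀ x, x ∈ Z ↔ x ∉ D ∧ (∃ y, R x y) ∧ ∀ y, R x y → y ∈ D := fun x => by simp [hZ]
  -- the classes
  have hκ : ∀ x ∈ N, ∃ i, R x (d i) ∧ ∀ j, R x (d j) → j = i := by
    intro x hx
    obtain ⟨hxD, y, hy, hxy⟩ := (mN x).1 hx
    obtain ⟨r, hr, hr1, hr2⟩ := (h.main hy (symm hxy)).2.2.1 x (symm hxy)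
    obtain ⟨i, rfl⟩ := Dd r hr
    refine ⟨i, ?_, fun j hj => dinj (hr2 (d j) (dD j) (Or.inr hj))⟩
    rcases hr1 with h1 | h1
    · exact absurd (h1 ▸ dD i) hxD
    · exact h1
  have : Nonempty V := ⟨x0⟩
  choose! κ hκ1 hκ2 using hκ
  -- the neighbours outside
  have hnb : ∀ x ∈ N, ∀ i, i ≠ κ x → ∃ y ∈ N, R x y ∧ κ y = i := by
    intro x hx i hi
    obtain ⟨hxD, y1, hy1, hxy1⟩ := (mN x).1 hx
    obtain ⟨-, -, h3, h4⟩ := h.main hxD hxy1
    obtain ⟨y, hy, hr⟩ := h4 (d i) (dD i)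
    have hyD : y ∉ D := by
      intro hyD
      obtain ⟨r, hr0, hr1, hr2⟩ := h3 y hy
      have h5 := hr2 y hyD (Or.inl rfl)
      have h6 := hr2 (d i) (dD i) hr
      have h7 : y = d i := h5.trans h6.symm
      rw [h7] at hy
      exact hi (hκ2 x hx i hy)
    have hyN : y ∈ N := (mN y).2 ⟨hyD, x, hxD, symm hy⟩
    refine ⟨y, hyN, hy, ?_⟩
    rcases hr with hr | hr
    · exact absurd (hr ▸ dD i) hyD
    · exact (hκ2 y hyN i hr).symm
  have hu : ∀ x ∈ N, ∀ y ∈ N, ∀ y' ∈ N, R x y → R x y' → κ y = κ y' → y = y' := by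
    intro x hx y hy y' hy' h1 h2 h3
    refine h.uniq ((mN x).1 hx).1 (dD (κ y)) h1 h2 (Or.inr (hκ1 y hy)) (Or.inr ?_)
    rw [h3]
    exact hκ1 y' hy'
  have hdiff : ∀ x ∈ N, ∀ y ∈ N, R x y → κ y ≠ κ x := by
    intro x hx y hy h1 h2
    have h3 := hκ1 y hy
    rw [h2] at h3
    exact h.good.tri h1 h3 (symm (hκ1 x hx))
  have hpi : ∀ x ∈ N, ∃ y ∈ N, R x y ∧ κ y = κ x + 1 := fun x hx => hnb x hx _ (by
    have : ∀ k : ZMod 3, k + 1 ≠ k := by decide
    exact this _)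
  have hrh : ∀ x ∈ N, ∃ y ∈ N, R x y ∧ κ y = κ x + 2 := fun x hx => hnb x hx _ (by
    have : ∀ k : ZMod 3, k + 2 ≠ k := by decide
    exact this _)
  choose! π0 hπ1 hπ2 hπ3 using hpi
  choose! ρ hρ1 hρ2 hρ3 using hrh
  set π : V → V := fun x => if x ∈ N then π0 x else x with hπ
  have πe : ∀ x ∈ N, π x = π0 x := fun x hx => if_pos hx
  have key1 : ∀ k : ZMod 3, k + 1 + 2 = k := by decide
  have key2 : ∀ k : ZMod 3, k + 2 + 1 = k := by decide
  have hρπ : ∀ x ∈ N, ρ (π x) = x := by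
    intro x hx
    rw [πe x hx]
    exact hu (π0 x) (hπ1 x hx) _ (hρ1 _ (hπ1 x hx)) x hx (hρ2 _ (hπ1 x hx)) (symm (hπ2 x hx))
      (by rw [hρ3 _ (hπ1 x hx), hπ3 x hx, key1])
  have hπρ : ∀ x ∈ N, π (ρ x) = x := by
    intro x hx
    rw [πe _ (hρ1 x hx)]
    exact hu (ρ x) (hρ1 x hx) _ (hπ1 _ (hρ1 x hx)) x hx (hπ2 _ (hρ1 x hx)) (symm (hρ2 x hx))
      (by rw [hπ3 _ (hρ1 x hx), hρ3 x hx, key2])
  -- elements of `Z`
  have hZn : ∀ z ∈ Z, ∀ w, R z w ↔ w ∈ D := by
    intro z hz w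
    obtain ⟨h1, ⟨y, h2⟩, h3⟩ := (mZ z).1 hz
    refine ⟨h3 w, fun hw => ?_⟩
    have h4 : univ.filter (R z) = D := by
      refine eq_of_subset_of_card_le (fun v hv => h3 v (mem_filter.1 hv).2) ?_
      rw [(h.main h1 h2).2.1, hD3]
    rw [← h4] at hw
    exact (mem_filter.1 hw).2
  have hall : ∀ x y, R x y → x ∉ D → x ∈ N ∨ x ∈ Z := by
    intro x y hxy hx
    by_cases h1 : ∃ y, y ∉ D ∧ R x y
    · exact Or.inl ((mN x).2 ⟨hx, h1⟩)
    · push Not at h1
      exact Or.inr ((mZ x).2 ⟨hx, ⟨y, hxy⟩, fun y hy => by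
        by_contra h2
        exact h1 y h2 hy⟩)
  have hZ1 : Z.card ≤ 1 := by
    rw [card_le_one]
    intro z hz z' hz'
    by_contra hne
    have h01 : d 0 ≠ d 1 := fun h1 => absurd (dinj h1) (by decide)
    exact h.good.four (a := z) (b := d 0) (c := z') (d := d 1) hne h01
      ((hZn z hz _).2 (dD 0)) (symm ((hZn z' hz' _).2 (dD 0))) ((hZn z' hz' _).2 (dD 1))
      (symm ((hZn z hz _).2 (dD 1)))
  refine ⟨d, N, Z, κ, π, ρ, dinj, fun i h1 => ((mN _).1 h1).1 (dD i),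
    fun i h1 => ((mZ _).1 h1).1 (dD i), ?_, ?_, ?_, ?_, fun x hx => if_neg hx, ?_, ?_, hZ1, ?_,
    ?_, ?_⟩
  · intro x hx hx'
    obtain ⟨-, y, hy, hxy⟩ := (mN x).1 hx
    exact hy (((mZ x).1 hx').2.2 y hxy)
  · intro x hx w
    constructor
    · intro hw
      by_cases hwD : w ∈ D
      · obtain ⟨i, rfl⟩ := Dd w hwD
        rw [hκ2 x hx i hw]
        exact Or.inl rfl
      · have hwN : w ∈ N := (mN w).2 ⟨hwD, x, ((mN x).1 hx).1, symm hw⟩
        right
        rcases three_cases _ _ (hdiff x hx w hwN hw) with h1 | h1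
        · left
          rw [πe x hx]
          exact hu x hx w hwN _ (hπ1 x hx) hw (hπ2 x hx) (by rw [h1, hπ3 x hx])
        · right
          exact hu x hx w hwN _ (hρ1 x hx) hw (hρ2 x hx) (by rw [h1, hρ3 x hx])
    · rintro (rfl | rfl | rfl)
      · exact hκ1 x hx
      · rw [πe x hx]; exact hπ2 x hx
      · exact hρ2 x hx
  · intro x hx
    refine ⟨?_, ?_, hρπ x hx⟩
    · rw [πe x hx]; exact hπ1 x hx
    · rw [πe x hx]; exact hπ3 x hx
  · intro x hx
    exact ⟨hρ1 x hx, hρ3 x hx, hπρ x hx⟩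
  · intro i w
    constructor
    · intro hw
      have hwD : w ∉ D := fun h1 => ind _ (dD i) _ h1 hw
      rcases hall w (d i) (symm hw) hwD with h1 | h1
      · exact Or.inl ⟨h1, (hκ2 w h1 i (symm hw)).symm⟩
      · exact Or.inr h1
    · rintro (⟨h1, h2⟩ | h1)
      · rw [← h2]
        exact symm (hκ1 w h1)
      · exact symm ((hZn w h1 _).2 (dD i))
  · intro z hz w
    rw [hZn z hz w]
    exact ⟨Dd w, fun ⟨i, hi⟩ => hi ▸ dD i⟩
  · intro x y hxy
    by_cases hx : x ∈ D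
    · exact Or.inr (Or.inr (Dd x hx))
    · rcases hall x y hxy hx with h1 | h1
      · exact Or.inl h1
      · exact Or.inr (Or.inl h1)
  · have h1 : (univ.filter (fun x => ∃ y, R x y)) ⊆ D ∪ (N ∪ Z) := by
      intro x hx
      obtain ⟨y, hy⟩ := (mem_filter.1 hx).2
      rw [mem_union, mem_union]
      by_cases hxD : x ∈ D
      · exact Or.inl hxD
      · exact Or.inr (hall x y hy hxD)
    have h2 := card_le_card h1
    have h3 := card_union_le D (N ∪ Z)
    have h4 := card_union_le N Z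
    have h5 := h.big
    omega
  · intro x hx h1
    have k1 : π x ∈ N := by rw [πe x hx]; exact hπ1 x hx
    have k2 : π (π x) ∈ N := by rw [πe _ k1]; exact hπ1 _ k1
    have e1 : R x (π x) := by rw [πe x hx]; exact hπ2 x hx
    have e2 : R (π x) (π (π x)) := by rw [πe _ k1]; exact hπ2 _ k1
    have e3 : R (π (π x)) (π (π (π x))) := by rw [πe _ k2]; exact hπ2 _ k2
    rw [h1] at e3
    exact h.good.tri e1 e2 e3

end Pool.Agent.T2H83.Dom
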