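import Pool.Agent.T2H83.Dom.Cyc
import Pool.Agent.T2H83.Dom.Str
import Pool.Agent.R545.PC.Main

set_option autoImplicit false
set_option linter.unusedSectionVars false
set_option synthInstance.maxHeartbeats 400000
set_option synthInstance.maxSize 2048

/-!
# Flows for graphs which are dominated by three vertices
-/

namespace Pool.Agent.T2H83.Dom

open Finset Pool.Agent.R545.IN Pool.Agent.TH362.TF.Four Pool.Agent.R890.FF
open Pool.Agent.TH362.TF (NZ N1 PQ odd Ends cut)
open Pool.Agent.TH676.A (Alg FlowOn)

variable {V E : Type} [Fintype V] [DecidableEq V] [DecidableEq E]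

theorem f2 (x : F) : x + x = 0 := by revert x; decide

/-- values on the pairs of neighbours -/
theorem Hub.col {R : V → V → Prop} [∀ y, DecidablePred (R y)] {d : ZMod 3 → V} {N Z : Finset V}
    {κ : V → ZMod 3} {π ρ : V → V} (h : Hub R d N Z κ π ρ) :
    ∃ col : V → V → F, (∀ u v, col u v = col v u) ∧ (∀ u v, R u v → col u v ≠ 0) ∧
      ∀ y, ∑ z ∈ univ.filter (R y), col y z = 0 := by
  classical
  have hS : Sit π κ N := by
    refine ⟨?_, ?_, fun v hv => (h.pi v hv).2.1, h.no3⟩
    · intro u v huv
      by_cases hu : u ∈ N <;> by_cases hv : v ∈ N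
      · rw [← (h.pi u hu).2.2, huv, (h.pi v hv).2.2]
      · rw [h.out v hv] at huv
        exact absurd (huv ▸ (h.pi u hu).1) hv
      · rw [h.out u hu] at huv
        exact absurd (huv ▸ (h.pi v hv).1) hu
      · rw [h.out u hu, h.out v hv] at huv
        exact huv
    · intro v
      constructor
      · intro h1
        by_contra h2
        rw [h.out v h2] at h1
        exact h2 h1
      · intro h1
        exact (h.pi v h1).1
  -- the colours
  obtain ⟨c, hc, hne⟩ : ∃ c, Pc π c N ∧
      ∀ i, Z.card • (sg κ c N i + sg κ c N (i + 2)) = sg κ c N i + sg κ c N (i + 2) ∧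
        (Z.card ≠ 0 → sg κ c N i + sg κ c N (i + 2) ≠ 0) := by
    rcases Nat.eq_zero_or_pos Z.card with h0 | h0
    · obtain ⟨c, hc, x, hx⟩ := eqsum _ _ rfl hS
      refine ⟨c, hc, fun i => ⟨?_, fun h1 => absurd h0 h1⟩⟩
      rw [h0, hx, hx, zero_smul, f2]
    · have h1 : Z.card = 1 := le_antisymm h.Z1 h0
      have h14 := h.N14
      obtain ⟨c, hc, hx⟩ := nesum hS (by omega)
      refine ⟨c, hc, fun i => ⟨by rw [h1, one_smul], fun _ h2 => ?_⟩⟩
      have h3 : i ≠ i + 2 := by
        have : ∀ k : ZMod 3, k ≠ k + 2 := by decide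
        exact this i
      apply hx i (i + 2) h3
      have h4 := f2 (sg κ c N (i + 2))
      exact add_right_cancel (h2.trans h4.symm)
  set e : ZMod 3 → F := fun i => sg κ c N i + sg κ c N (i + 2) with he
  set sp : V → F := fun u => c u + c (ρ u) with hsp
  set H : V → F := fun w => if k : ∃ i, w = d i then e k.choose else (1, 0) with hH
  have Hd : ∀ i, H (d i) = e i := by
    intro i
    have k : ∃ j, d i = d j := ⟨i, rfl⟩
    simp only [hH]
    rw [dif_pos k, ← h.inj k.choose_spec]
  have Hz : ∀ z ∈ Z, H z = (1, 0) := by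
    intro z hz
    simp only [hH]
    rw [dif_neg]
    rintro ⟨i, rfl⟩
    exact h.dZ i hz
  set col : V → V → F := fun u v =>
    if u ∈ N then (if v ∈ N then (if v = π u then c u else if u = π v then c v else (1, 0))
      else sp u)
    else if v ∈ N then sp v
    else if u ∈ Z then H v else if v ∈ Z then H u else (1, 0) with hcol
  have no2 : ∀ u ∈ N, π (π u) ≠ u := by
    intro u hu h1
    have h2 := (h.pi _ (h.pi u hu).1).2.1
    rw [h1, (h.pi u hu).2.1] at h2
    have : ∀ k : ZMod 3, k ≠ k + 1 + 1 := by decide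
    exact this _ h2
  have spnz : ∀ u ∈ N, sp u ≠ 0 := by
    intro u hu h1
    have h2 := (hc _ (h.rh u hu).1).2
    rw [(h.rh u hu).2.2] at h2
    have h3 : c u + c (ρ u) = c (ρ u) + c (ρ u) := by rw [f2]; exact h1
    exact h2 (add_right_cancel h3).symm
  have one : ((1, 0) : F) ≠ 0 := by decide
  refine ⟨col, ?_, ?_, ?_⟩
  · intro u v
    simp only [hcol]
    by_cases hu : u ∈ N <;> by_cases hv : v ∈ N
    · rw [if_pos hu, if_pos hv, if_pos hv, if_pos hu]
      by_cases h1 : v = π u
      · have h2 : u ≠ π v := fun h3 => no2 u hu (by rw [← h1, ← h3])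
        rw [if_pos h1, if_neg h2, if_pos h1]
      · rw [if_neg h1]
        by_cases h2 : u = π v
        · rw [if_pos h2, if_pos h2]
        · rw [if_neg h2, if_neg h2, if_neg h1]
    · rw [if_pos hu, if_neg hv, if_neg hv, if_pos hu]
    · rw [if_neg hu, if_pos hv, if_pos hv, if_neg hu]
    · rw [if_neg hu, if_neg hv, if_neg hv, if_neg hu]
      by_cases h1 : u ∈ Z <;> by_cases h2 : v ∈ Z
      · rw [if_pos h1, if_pos h2, Hz u h1, Hz v h2]
      · rw [if_pos h1, if_neg h2, if_pos h1]
      · rw [if_neg h1, if_pos h2, if_pos h2]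
      · rw [if_neg h1, if_neg h2, if_neg h2, if_neg h1]
  · intro u v huv
    simp only [hcol]
    by_cases hu : u ∈ N
    · rw [if_pos hu]
      by_cases hv : v ∈ N
      · rw [if_pos hv]
        split_ifs
        · exact (hc u hu).1
        · exact (hc v hv).1
        · exact one
      · rw [if_neg hv]
        exact spnz u hu
    · rw [if_neg hu]
      by_cases hv : v ∈ N
      · rw [if_pos hv]
        exact spnz v hv
      · rw [if_neg hv]
        by_cases h1 : u ∈ Z
        · rw [if_pos h1]
          obtain ⟨i, rfl⟩ := (h.nbZ u h1 v).1 huv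
          rw [Hd]
          exact (hne i).2 (card_ne_zero_of_mem h1)
        · rw [if_neg h1]
          by_cases h2 : v ∈ Z
          · rw [if_pos h2]
            rcases h.all u v huv with h3 | h3 | ⟨i, rfl⟩
            · exact absurd h3 hu
            · exact absurd h3 h1
            · rw [Hd]
              exact (hne i).2 (card_ne_zero_of_mem h2)
          · rw [if_neg h2]
            exact one
  · intro y
    by_cases hy : y ∈ N
    · -- a vertex of a cycle
      obtain ⟨p1, p2, p3⟩ := h.pi y hy
      obtain ⟨r1, r2, r3⟩ := h.rh y hy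
      have n1 : π y ≠ ρ y := by
        intro h1
        rw [h1, r2] at p2
        have : ∀ k : ZMod 3, k + 2 ≠ k + 1 := by decide
        exact this _ p2
      have n2 : d (κ y) ≠ π y := fun h1 => h.dN (κ y) (h1 ▸ p1)
      have n3 : d (κ y) ≠ ρ y := fun h1 => h.dN (κ y) (h1 ▸ r1)
      have h1 : univ.filter (R y) = {d (κ y), π y, ρ y} := by
        ext w
        rw [mem_filter, h.nbN y hy w]
        simp
      rw [h1, sum_insert (by simp [n2, n3]), sum_insert (by simp [n1]), sum_singleton]
      have k1 : col y (d (κ y)) = sp y := by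
        simp only [hcol]
        rw [if_pos hy, if_neg (h.dN _)]
      have k2 : col y (π y) = c y := by
        simp only [hcol]
        rw [if_pos hy, if_pos p1]
        exact if_pos trivial
      have k3 : col y (ρ y) = c (ρ y) := by
        simp only [hcol]
        rw [if_pos hy, if_pos r1, if_neg n1.symm, if_pos r3.symm]
      rw [k1, k2, k3]
      exact f2 _
    · by_cases hz : y ∈ Z
      · -- the further vertex
        have h1 : univ.filter (R y) = univ.image d := by
          ext w
          rw [mem_filter, h.nbZ y hz w]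
          simp [eq_comm]
        rw [h1, sum_image (fun i _ j _ hij => h.inj hij)]
        have h2 : ∀ i ∈ (univ : Finset (ZMod 3)), col y (d i) = e i := by
          intro i _
          simp only [hcol]
          rw [if_neg hy, if_neg (h.dN i), if_pos hz, Hd]
        rw [Finset.sum_congr rfl h2]
        have h3 : ∀ g : ZMod 3 → F, ∑ i : ZMod 3, (g i + g (i + 2)) = 0 := by
          intro g
          have k1 : ∑ i : ZMod 3, g (i + 2) = ∑ i : ZMod 3, g i :=
            Equiv.sum_comp (Equiv.addRight (2 : ZMod 3)) g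
          rw [Finset.sum_add_distrib, k1]
          exact f2 _
        exact h3 (sg κ c N)
      · by_cases hd : ∃ i, y = d i
        · -- a hub
          obtain ⟨i, rfl⟩ := hd
          have h1 : univ.filter (R (d i)) = N.filter (fun w => κ w = i) ∪ Z := by
            ext w
            rw [mem_filter, h.nbD i w, mem_union, mem_filter]
            simp
          have h2 : Disjoint (N.filter (fun w => κ w = i)) Z := by
            rw [disjoint_left]
            intro w hw
            exact h.NZ w (mem_filter.1 hw).1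
          rw [h1, sum_union h2]
          have h3 : ∑ w ∈ N.filter (fun w => κ w = i), col (d i) w =
              ∑ w ∈ N.filter (fun w => κ w = i), (c w + c (ρ w)) := by
            refine Finset.sum_congr rfl fun w hw => ?_
            simp only [hcol]
            rw [if_neg (h.dN i), if_pos (mem_filter.1 hw).1]
          have h4 : ∑ w ∈ Z, col (d i) w = Z.card • e i := by
            rw [← Finset.sum_const]
            refine Finset.sum_congr rfl fun w hw => ?_
            simp only [hcol]
            rw [if_neg (h.dN i), if_neg (fun h5 => h.NZ w h5 hw), if_neg (h.dZ i), if_pos hw, Hd]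
          have h5 : ∑ w ∈ N.filter (fun w => κ w = i), c (ρ w) = sg κ c N (i + 2) := by
            unfold sg
            rw [← Finset.sum_filter]
            refine Finset.sum_nbij' ρ π ?_ ?_ ?_ ?_ ?_
            · intro w hw
              obtain ⟨k1, k2⟩ := mem_filter.1 hw
              exact mem_filter.2 ⟨(h.rh w k1).1, by rw [(h.rh w k1).2.1, k2]⟩
            · intro w hw
              obtain ⟨k1, k2⟩ := mem_filter.1 hw
              refine mem_filter.2 ⟨(h.pi w k1).1, ?_⟩
              rw [(h.pi w k1).2.1, k2]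
              have : ∀ k : ZMod 3, k + 2 + 1 = k := by decide
              exact this i
            · intro w hw
              exact (h.rh w (mem_filter.1 hw).1).2.2
            · intro w hw
              exact (h.pi w (mem_filter.1 hw).1).2.2
            · intro w _
              rfl
          rw [h3, h4, Finset.sum_add_distrib, h5, Finset.sum_filter]
          have h6 : Z.card • e i = sg κ c N i + sg κ c N (i + 2) := (hne i).1
          rw [h6]
          exact f2 _
        · have h1 : univ.filter (R y) = ∅ := by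
            rw [filter_eq_empty_iff]
            intro w _ hw
            rcases h.all y w hw with h2 | h2 | h2
            · exact hy h2
            · exact hz h2
            · exact hd h2
          rw [h1, sum_empty]

/-- a minimal quotient is not dominated by three vertices -/
theorem no_Mq {s t : E → V} {S : Finset E} (h : Mq s t S) (D : Finset V) (hD : D.card ≤ 3)
    (hdom : ∀ x y, Nb s t S x y → x ∈ D ∨ ∃ d ∈ D, Nb s t S x d) : False := by
  classical
  have hH : Hyp (Nb s t S) D := by
    refine ⟨good_nb h, ?_, hD, hdom, ?_⟩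
    · intro x y hxy
      have h1 : 0 < (univ.filter (Nb s t S x)).card :=
        card_pos.2 ⟨y, mem_filter.2 ⟨mem_univ _, hxy⟩⟩
      have h2 := h.nb_ne_one x
      have h3 := h.nb_ne_two x
      omega
    · refine h.odd18.trans (card_le_card fun y hy => ?_)
      have h1 := (h.odd_nb y).1 hy
      obtain ⟨z, hz⟩ := card_pos.1 (show 0 < (univ.filter (Nb s t S y)).card by omega)
      exact mem_filter.2 ⟨mem_univ _, z, (mem_filter.1 hz).2⟩
  obtain ⟨d, N, Z, κ, π, ρ, hh⟩ := hH.hub
  obtain ⟨col, h1, h2, h3⟩ := hh.col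
  refine h.nz ⟨fun e => if s e = t e then (1, 0) else col (s e) (t e), fun e he => ?_,
    fun v => ?_⟩
  · show (if s e = t e then ((1, 0) : F) else col (s e) (t e)) ≠ 0
    split_ifs with h4
    · decide
    · exact h2 _ _ ⟨fun h5 => h4 h5.symm, e, he, Or.inl ⟨rfl, rfl⟩⟩
  · have h4 := h.sum_nb v col h1 (1, 0)
    rw [h3 v] at h4
    exact h4

/-- the edge `e` joins the class of `x` and the class of `y` -/
def JoinsUpTo (s t : E → V) (r : V → V → Prop) (x y : V) (e : E) : Prop :=
  (r (s e) x ∧ r (t e) y) ∨ (r (s e) y ∧ r (t e) x)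

/-- the graph whose vertices are the classes of `r` has no circuit with two, three or four edges and
no vertex of degree two -/
structure Reduced (s t : E → V) (r : V → V → Prop) : Prop where
  two : ∀ x y e e', ¬ r x y → e ≠ e' → JoinsUpTo s t r x y e → ¬ JoinsUpTo s t r x y e'
  three : ∀ x y z e₁ e₂ e₃, ¬ r x y → ¬ r y z → ¬ r z x → JoinsUpTo s t r x y e₁ →
    JoinsUpTo s t r y z e₂ → ¬ JoinsUpTo s t r z x e₃
  four : ∀ x y z w e₁ e₂ e₃ e₄, ¬ r x y → ¬ r y z → ¬ r z w → ¬ r w x → ¬ r x z → ¬ r y w →
    JoinsUpTo s t r x y e₁ → JoinsUpTo s t r y z e₂ → JoinsUpTo s t r z w e₃ →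
    ¬ JoinsUpTo s t r w x e₄
  deg : ∀ x, {e | ¬ (r (s e) x ↔ r (t e) x)}.ncard ≠ 2

/-- there are three vertices such that the class of each end of an edge is the class of one of
them or is joined to it by an edge -/
def Dominated (s t : E → V) (r : V → V → Prop) : Prop :=
  ∃ d : Fin 3 → V, ∀ x, (∃ e, s e = x ∨ t e = x) → ∃ i, r x (d i) ∨ ∃ e, JoinsUpTo s t r x (d i) e

/-- all reduced quotients are dominated by three vertices -/
def Dm (s t : E → V) : Prop :=
  ∀ r : V → V → Prop, Equivalence r → Reduced s t r → Dominated s t r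

theorem dm_map (s t : E → V) (π : V → V) (h : Dm s t) :
    Dm (fun e => π (s e)) (fun e => π (t e)) := by
  intro r hr hR
  obtain ⟨d, hd⟩ := h (fun x y => r (π x) (π y))
    ⟨fun x => hr.refl _, fun h => hr.symm h, fun h h' => hr.trans h h'⟩
    ⟨fun x y e e' h1 h2 h3 h4 => hR.two (π x) (π y) e e' h1 h2 h3 h4,
      fun x y z e₁ e₂ e₃ h1 h2 h3 h4 h5 h6 =>
        hR.three (π x) (π y) (π z) e₁ e₂ e₃ h1 h2 h3 h4 h5 h6,
      fun x y z w e₁ e₂ e₃ e₄ h1 h2 h3 h4 h5 h6 h7 h8 h9 h10 =>
        hR.four (π x) (π y) (π z) (π w) e₁ e₂ e₃ e₄ h1 h2 h3 h4 h5 h6 h7 h8 h9 h10,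
      fun x => hR.deg (π x)⟩
  refine ⟨fun i => π (d i), fun x hx => ?_⟩
  obtain ⟨e, he⟩ := hx
  have h1 : ∃ y, π y = x ∧ ∃ e, s e = y ∨ t e = y := by
    rcases he with he | he
    · exact ⟨s e, he, e, Or.inl rfl⟩
    · exact ⟨t e, he, e, Or.inr rfl⟩
  obtain ⟨y, rfl, hy⟩ := h1
  obtain ⟨i, h2⟩ := hd y hy
  exact ⟨i, h2⟩

/-- **graphs dominated by three vertices** -/
theorem nz_or_pq [Fintype E] (s t : E → V) (hd : Dm s t) (h1 : N1 s t univ) :
    NZ s t univ ∨ PQ s t univ := by
  classical
  by_contra hc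
  rw [not_or] at hc
  obtain ⟨π, hM⟩ := exists_Mq s t univ h1 hc.1 hc.2
  obtain ⟨d, hd⟩ := hd (fun x y => π x = π y)
    ⟨fun _ => rfl, fun h => h.symm, fun h h' => h.trans h'⟩
    ⟨fun x y e e' h1 h2 h3 h4 => h2 (hM.nopar h1 (mem_univ _) (mem_univ _) h3 h4),
      fun x y z e₁ e₂ e₃ h1 h2 h3 h4 h5 h6 => hM.notri h1 (Ne.symm h3) h2 (mem_univ _)
        (mem_univ _) (mem_univ _) h4 h5 h6,
      fun x y z w e₁ e₂ e₃ e₄ h1 h2 h3 h4 h5 h6 h7 h8 h9 h10 => hM.nofour h1 h5 (Ne.symm h4) h2 h6
        h3 (mem_univ _) (mem_univ _) (mem_univ _) (mem_univ _) h7 h8 h9 h10,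
      fun x => by
        have h2 := hM.nb_ne_two (π x)
        rw [← hM.cut_nb (π x)] at h2
        have h3 : {e | ¬ (π (s e) = π x ↔ π (t e) = π x)} =
            ((cut (fun e => π (s e)) (fun e => π (t e)) univ (fun u => decide (u = π x)) :
              Finset E) : Set E) := by
          ext e
          simp only [cut, coe_filter, mem_univ, true_and, Set.mem_ofPred_eq]
          by_cases k1 : π (s e) = π x <;> by_cases k2 : π (t e) = π x <;> simp [k1, k2]
        rw [h3, Set.ncard_coe_finset]
        exact h2⟩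
  refine no_Mq hM (univ.image fun i => π (d i)) (card_image_le.trans (by simp)) ?_
  rintro y w ⟨hne, e, -, hE⟩
  obtain ⟨x, rfl, hx⟩ : ∃ x, π x = y ∧ ∃ e, s e = x ∨ t e = x := by
    rcases hE with ⟨h3, _⟩ | ⟨_, h3⟩
    · exact ⟨s e, h3, e, Or.inl rfl⟩
    · exact ⟨t e, h3, e, Or.inr rfl⟩
  obtain ⟨i, h3⟩ := hd x hx
  have hi : π (d i) ∈ univ.image (fun i => π (d i)) := mem_image_of_mem _ (mem_univ i)
  rcases h3 with h3 | ⟨f, h3⟩
  · left
    change π x = π (d i) at h3
    rw [h3]
    exact hi
  · by_cases h4 : π x = π (d i)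
    · left
      rw [h4]
      exact hi
    · exact Or.inr ⟨π (d i), hi, Ne.symm h4, f, mem_univ _, h3⟩

variable {Γ : Type} [AddCommGroup Γ] {A : Γ → Prop}

/-- flows with allowed values -/
theorem alg_dom [Fintype E] (hA : Alg A) {val : Fin 10 → Fin 10 → Γ} (hv : Pet A val)
    (h4 : ∃ σ : F →+ Γ, ∀ x, x ≠ 0 → A (σ x)) (s t : E → V) (hN : N1 s t univ) (hd : Dm s t) :
    FlowOn A s t ∅ ∅ :=
  alg_class hA hv h4 (Cl := Dm) (fun s t π h => dm_map s t π h)
    (fun s t h1 h2 => nz_or_pq s t h1 h2) _ s t rfl hd hN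

end Pool.Agent.T2H83.Dom
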