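import Mathlib

set_option autoImplicit false

/-!
# Colours along the cycles of a permutation which moves three classes cyclically

`F` is the group of order four.  A pattern of length `n` is a sequence `p 0, …, p (n - 1)` of
nonzero elements of `F` such that consecutive ones (also `p (n - 1)` and `p 0`) are different;
`T p n i` is the sum of the `p j` with `j ≡ i` modulo three.
-/

namespace Pool.Agent.T2H83.Dom

open Finset

abbrev F := ZMod 2 × ZMod 2

/-- the sum of the elements of the pattern in the class `i` -/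
def T (p : ℕ → F) (n : ℕ) (i : ZMod 3) : F := ∑ j ∈ range n, if (j : ZMod 3) = i then p j else 0

/-- a proper cyclic pattern -/
structure PatOK (p : ℕ → F) (n : ℕ) : Prop where
  nz : ∀ j < n, p j ≠ 0
  ne : ∀ j, j + 1 < n → p j ≠ p (j + 1)
  cyc : p (n - 1) ≠ p 0

/-- the list `P`, continued by `a, b, a, b, …` with `a = (1, 0)` and `b = (0, 1)` -/
def ext (P : List F) (j : ℕ) : F :=
  if j < P.length then P.getD j 0 else if (j - P.length) % 2 = 0 then (1, 0) else (0, 1)

/-- the properties of the list which are used -/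
def LOK (P : List F) : Prop :=
  0 < P.length ∧ P.length % 3 = 0 ∧ (∀ j < P.length, P.getD j 0 ≠ 0) ∧
    (∀ j < P.length - 1, P.getD j 0 ≠ P.getD (j + 1) 0) ∧
    P.getD (P.length - 1) 0 ≠ P.getD 0 0 ∧ P.getD (P.length - 1) 0 ≠ (1, 0) ∧
    P.getD 0 0 ≠ (0, 1)

instance (P : List F) : Decidable (LOK P) := by unfold LOK; infer_instance

theorem ext_ok {P : List F} (h : LOK P) (r : ℕ) : PatOK (ext P) (P.length + 6 * r) := by
  obtain ⟨h1, h2, h3, h4, h5, h6, h7⟩ := h
  have hab : ((1, 0) : F) ≠ (0, 1) := by decide
  refine ⟨fun j hj => ?_, fun j hj => ?_, ?_⟩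
  · unfold ext
    split_ifs with k1 k2
    · exact h3 j k1
    · decide
    · decide
  · unfold ext
    by_cases k1 : j + 1 < P.length
    · rw [if_pos k1, if_pos (by omega)]
      exact h4 j (by omega)
    · rw [if_neg k1]
      by_cases k2 : j < P.length
      · have k3 : j = P.length - 1 := by omega
        rw [if_pos k2, if_pos (by omega), k3]
        exact h6
      · rw [if_neg k2]
        by_cases k3 : (j - P.length) % 2 = 0
        · rw [if_pos k3, if_neg (by omega)]
          exact hab
        · rw [if_neg k3, if_pos (by omega)]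
          exact hab.symm
  · unfold ext
    by_cases k1 : P.length + 6 * r - 1 < P.length
    · have k2 : P.length + 6 * r - 1 = P.length - 1 := by omega
      rw [if_pos k1, if_pos h1, k2]
      exact h5
    · rw [if_neg k1, if_pos h1, if_neg (by omega)]
      exact h7.symm

theorem T_ext {P : List F} (h : LOK P) (r : ℕ) (i : ZMod 3) :
    T (ext P) (P.length + 6 * r) i = T (ext P) P.length i + r • ((1, 1) : F) := by
  have h2 := h.2.1
  have hL : ((P.length : ℕ) : ZMod 3) = 0 := by
    rw [ZMod.natCast_eq_zero_iff]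
    exact Nat.dvd_of_mod_eq_zero h2
  induction r with
  | zero => simp
  | succ r ih =>
    have h6 : (((6 * r : ℕ)) : ZMod 3) = 0 := by
      rw [ZMod.natCast_eq_zero_iff]
      exact ⟨2 * r, by ring⟩
    have hv : ∀ m, ext P (P.length + 6 * r + m) = if m % 2 = 0 then (1, 0) else (0, 1) := by
      intro m
      unfold ext
      rw [if_neg (by omega)]
      have : (P.length + 6 * r + m - P.length) % 2 = m % 2 := by omega
      rw [this]
    have hk : ∀ m, (((P.length + 6 * r + m : ℕ)) : ZMod 3) = (m : ZMod 3) := by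
      intro m
      rw [Nat.cast_add, Nat.cast_add, hL, h6, zero_add, zero_add]
    have hs : P.length + 6 * (r + 1) = P.length + 6 * r + 6 := by ring
    have h7 : T (ext P) (P.length + 6 * (r + 1)) i = T (ext P) (P.length + 6 * r) i +
        ∑ m ∈ range 6, if ((m : ℕ) : ZMod 3) = i then
          (if m % 2 = 0 then ((1, 0) : F) else (0, 1)) else 0 := by
      unfold T
      rw [hs, Finset.sum_range_add]
      congr 1
      refine Finset.sum_congr rfl fun m _ => ?_
      rw [hk, hv]
    have h8 : ∀ i : ZMod 3, (∑ m ∈ range 6, if ((m : ℕ) : ZMod 3) = i then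
          (if m % 2 = 0 then ((1, 0) : F) else (0, 1)) else 0) = (1, 1) := by
      decide
    rw [h7, h8, ih, add_smul, one_smul, add_assoc]

/-- the equal pattern with six elements -/
def pe : List F := [(1, 0), (0, 1), (1, 0), (0, 1), (1, 0), (0, 1)]
/-- the equal pattern with nine elements -/
def po : List F := [(1, 0), (0, 1), (1, 0), (0, 1), (1, 1), (0, 1), (1, 1), (1, 0), (1, 1)]
/-- the pattern with nine elements and three different sums -/
def qo : List F := [(1, 0), (0, 1), (1, 0), (0, 1), (1, 0), (0, 1), (1, 0), (0, 1), (1, 1)]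
/-- the pattern with twelve elements and three different sums -/
def qe : List F := [(1, 0), (0, 1), (1, 0), (0, 1), (1, 0), (0, 1), (1, 1), (1, 0), (0, 1), (1, 0),
  (0, 1), (1, 1)]
/-- two patterns with six elements -/
def x6 : List F := [(1, 0), (0, 1), (1, 0), (0, 1), (1, 0), (1, 1)]
/-- two patterns with six elements -/
def y6 : List F := [(1, 0), (0, 1), (1, 1), (0, 1), (1, 1), (0, 1)]

theorem pe_ok : LOK pe := by decide
theorem po_ok : LOK po := by decide
theorem qo_ok : LOK qo := by decide
theorem qe_ok : LOK qe := by decide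
theorem x6_ok : LOK x6 := by decide
theorem y6_ok : LOK y6 := by decide

theorem pe_T : ∀ i, T (ext pe) pe.length i = (1, 1) := by decide
theorem po_T : ∀ i, T (ext po) po.length i = 0 := by decide
theorem qo_T : ∀ i j, i ≠ j → T (ext qo) qo.length i ≠ T (ext qo) qo.length j := by decide
theorem qe_T : ∀ i j, i ≠ j → T (ext qe) qe.length i ≠ T (ext qe) qe.length j := by decide
theorem xy_T : ∀ i j, i ≠ j → T (ext x6) x6.length i + T (ext y6) y6.length i ≠
    T (ext x6) x6.length j + T (ext y6) y6.length j := by decide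

/-- for each length which is possible there is a pattern with equal sums -/
theorem ex_eq {n : ℕ} (h1 : n % 3 = 0) (h2 : 6 ≤ n) :
    ∃ p, PatOK p n ∧ ∃ x, ∀ i, T p n i = x := by
  rcases Nat.even_or_odd' n with ⟨k, hk | hk⟩
  · have h3 : n = pe.length + 6 * ((n - 6) / 6) := by
      have : pe.length = 6 := rfl
      omega
    refine ⟨ext pe, ?_, (1, 1) + ((n - 6) / 6) • ((1, 1) : F), fun i => ?_⟩
    · rw [h3]; exact ext_ok pe_ok _
    · conv_lhs => rw [h3]
      rw [T_ext pe_ok, pe_T]
  · have h3 : n = po.length + 6 * ((n - 9) / 6) := by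
      have : po.length = 9 := rfl
      omega
    refine ⟨ext po, ?_, 0 + ((n - 9) / 6) • ((1, 1) : F), fun i => ?_⟩
    · rw [h3]; exact ext_ok po_ok _
    · conv_lhs => rw [h3]
      rw [T_ext po_ok, po_T]

/-- for each length at least nine there is a pattern with different sums -/
theorem ex_ne {n : ℕ} (h1 : n % 3 = 0) (h2 : 9 ≤ n) :
    ∃ p, PatOK p n ∧ ∀ i j, i ≠ j → T p n i ≠ T p n j := by
  rcases Nat.even_or_odd' n with ⟨k, hk | hk⟩
  · have h3 : n = qe.length + 6 * ((n - 12) / 6) := by
      have : qe.length = 12 := rfl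
      omega
    refine ⟨ext qe, ?_, fun i j hij => ?_⟩
    · rw [h3]; exact ext_ok qe_ok _
    · rw [h3, T_ext qe_ok, T_ext qe_ok]
      exact fun h => qe_T i j hij (add_right_cancel h)
  · have h3 : n = qo.length + 6 * ((n - 9) / 6) := by
      have : qo.length = 9 := rfl
      omega
    refine ⟨ext qo, ?_, fun i j hij => ?_⟩
    · rw [h3]; exact ext_ok qo_ok _
    · rw [h3, T_ext qo_ok, T_ext qo_ok]
      exact fun h => qo_T i j hij (add_right_cancel h)

end Pool.Agent.T2H83.Dom
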